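import Pool.Agent.H95.RQ.Targets1

/-!
# HQX: Herbrand quotients of permutation modules
-/

set_option autoImplicit false

namespace Pool.Agent.H89.RQ

open Pool.Agent.H95.RQ Pool.Agent.H28.RC

theorem orbit_prod {X A : Type} [CommGroup A] (σ : X → X) (f : X → A) (x : X) (n : ℕ)
    (hn : 0 < n) (hx : σ^[n] x = x) (F : Finset X) (hF : ∀ x', x' ∈ F ↔ ∃ i, σ^[i] x = x') :
    0 < F.card ∧ ∀ N : ℕ, σ^[N] x = x → F.card ∣ N ∧
      ∏ i ∈ Finset.range N, f (σ^[i] x) = (∏ x' ∈ F, f x') ^ (N / F.card) := by
  classical
  set d := Function.minimalPeriod σ x with hd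
  have hper : x ∈ Function.periodicPts σ := ⟨n, hn, hx⟩
  have hd0 : 0 < d := Function.minimalPeriod_pos_of_mem_periodicPts hper
  have hFi : F = (Finset.range d).image fun i => σ^[i] x := by
    ext x'
    rw [hF, Finset.mem_image]
    constructor
    · rintro ⟨i, rfl⟩
      exact ⟨i % d, Finset.mem_range.2 (Nat.mod_lt _ hd0),
        Function.iterate_mod_minimalPeriod_eq⟩
    · rintro ⟨i, -, rfl⟩
      exact ⟨i, rfl⟩
  have hinj : Set.InjOn (fun i => σ^[i] x) (Finset.range d : Set ℕ) := by
    intro i hi j hj h
    exact Function.iterate_injOn_Iio_minimalPeriod (by simpa using hi) (by simpa using hj) h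
  have hcard : F.card = d := by
    rw [hFi, Finset.card_image_of_injOn hinj, Finset.card_range]
  have hprod : ∏ x' ∈ F, f x' = ∏ i ∈ Finset.range d, f (σ^[i] x) := by
    rw [hFi, Finset.prod_image hinj]
  rw [hcard]
  refine ⟨hd0, fun N hN => ?_⟩
  have hdvd : d ∣ N := Function.IsPeriodicPt.minimalPeriod_dvd hN
  refine ⟨hdvd, ?_⟩
  obtain ⟨m, rfl⟩ := hdvd
  rw [Nat.mul_div_cancel_left _ hd0, hprod]
  clear hN
  induction m with
  | zero => simp
  | succ m ih =>
    rw [Nat.mul_succ, Finset.prod_range_add, ih, pow_succ]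
    congr 1
    refine Finset.prod_congr rfl fun i _ => ?_
    rw [add_comm, Function.iterate_add_apply]
    congr 2
    exact (Function.isPeriodicPt_minimalPeriod σ x).mul_const m

theorem pm_iter {X : Type} (π : Equiv.Perm X) (a : X → Multiplicative ℤ) (i : ℕ) (x : X) :
    (pm π)^[i] a x = a (π.symm^[i] x) := by
  induction i generalizing x with
  | zero => rfl
  | succ i ih =>
    rw [Function.iterate_succ_apply', Function.iterate_succ_apply]
    show (pm π)^[i] a (π.symm x) = _
    exact ih _

theorem nm_apply {X : Type} (π : Equiv.Perm X) (n : ℕ) (a : X → Multiplicative ℤ) (x : X) :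
    nm (pm π) n a x = ∏ i ∈ Finset.range n, a (π.symm^[i] x) := by
  show (∏ i ∈ Finset.range n, (pm π)^[i] a) x = _
  rw [Finset.prod_apply]
  exact Finset.prod_congr rfl fun i _ => pm_iter π a i x

theorem dl_apply {X : Type} (π : Equiv.Perm X) (a : X → Multiplicative ℤ) (x : X) :
    dl (pm π) a x = a (π.symm x) / a x := rfl

theorem pf_HQX : T_HQX := by
  intro X Y _ _ π p n hn hπ hp hfib
  classical
  have : Fintype X := Fintype.ofFinite X
  -- the fibres
  have hpow : ∀ (i : ℕ) (x : X), (π ^ i) x = π^[i] x := fun i x => by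
    rw [Equiv.Perm.iterate_eq_pow]
  have hsymm : ∀ (i : ℕ) (x : X), π.symm^[i] (π^[i] x) = x := fun i x =>
    (Function.LeftInverse.iterate π.symm_apply_apply i) x
  have hsymm' : ∀ (i : ℕ) (x : X), π^[i] (π.symm^[i] x) = x := fun i x =>
    (Function.LeftInverse.iterate π.apply_symm_apply i) x
  have hfib' : ∀ x x' : X, p x = p x' ↔ ∃ i : ℕ, π.symm^[i] x = x' := by
    intro x x'
    rw [eq_comm, hfib]
    constructor
    · rintro ⟨i, h⟩
      refine ⟨i, ?_⟩
      rw [← h, hpow, hsymm]
    · rintro ⟨i, h⟩
      refine ⟨i, ?_⟩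
      rw [← h, hpow, hsymm']
  have hper : ∀ x, π.symm^[n] x = x := by
    intro x
    have h1 : π^[n] x = x := by
      rw [← hpow, hπ]
      rfl
    conv_lhs => rw [← h1]
    exact hsymm n x
  let F : Y → Finset X := fun y => Finset.univ.filter fun x => p x = y
  have hF : ∀ x x' : X, x' ∈ F (p x) ↔ ∃ i, π.symm^[i] x = x' := by
    intro x x'
    rw [← hfib']
    simp only [F, Finset.mem_filter, Finset.mem_univ, true_and]
    exact eq_comm
  have hcardF : ∀ y, Nat.card {x // p x = y} = (F y).card := by
    intro y
    rw [Nat.card_eq_fintype_card, Fintype.card_subtype]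
  have key := fun (f : X → Multiplicative ℤ) (x : X) =>
    orbit_prod π.symm f x n hn (hper x) (F (p x)) (hF x)
  have hm0 : ∀ y, 0 < n / (F y).card := by
    intro y
    obtain ⟨x, rfl⟩ := hp y
    obtain ⟨h1, h2⟩ := key 1 x
    exact Nat.div_pos (Nat.le_of_dvd hn (h2 n (hper x)).1) h1
  have hnm : ∀ (a : X → Multiplicative ℤ) (x : X), nm (pm π) n a x =
      (∏ x' ∈ F (p x), a x') ^ (n / (F (p x)).card) := by
    intro a x
    rw [nm_apply]
    exact ((key a x).2 n (hper x)).2
  constructor
  · -- `h0`
    let Φ : (Y → Multiplicative ℤ) →* (X → Multiplicative ℤ) :=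
      { toFun := fun b x => b (p x)
        map_one' := rfl
        map_mul' := fun _ _ => rfl }
    have hA : ⊤ ⊓ (dl (pm π)).ker = Φ.range := by
      ext a
      rw [Subgroup.mem_inf, MonoidHom.mem_ker, MonoidHom.mem_range]
      constructor
      · rintro ⟨-, ha⟩
        have ha' : ∀ x, a (π.symm x) = a x := by
          intro x
          have := congrFun ha x
          rw [dl_apply] at this
          exact div_eq_one.1 this
        have ha2 : ∀ (i : ℕ) (x : X), a (π.symm^[i] x) = a x := by
          intro i
          induction i with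
          | zero => exact fun _ => rfl
          | succ i ih =>
            intro x
            rw [Function.iterate_succ_apply, ih, ha']
        refine ⟨fun y => a (Function.surjInv hp y), ?_⟩
        funext x
        show a (Function.surjInv hp (p x)) = a x
        have h1 : p x = p (Function.surjInv hp (p x)) := (Function.surjInv_eq hp (p x)).symm
        obtain ⟨i, hi⟩ := (hfib' _ _).1 h1
        rw [← hi, ha2]
      · rintro ⟨b, rfl⟩
        refine ⟨trivial, ?_⟩
        funext x
        rw [dl_apply]
        show b (p (π.symm x)) / b (p x) = 1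
        rw [div_eq_one]
        congr 1
        exact ((hfib' _ _).2 ⟨1, rfl⟩).symm
    let Ψ : (Y → Multiplicative ℤ) →* (∀ y, Multiplicative (ZMod (n / (F y).card))) :=
      { toFun := fun b y => Multiplicative.ofAdd ((Multiplicative.toAdd (b y) : ℤ) : ZMod _)
        map_one' := by
          funext y
          simp
        map_mul' := fun b b' => by
          funext y
          simp }
    have hB : ((⊤ : Subgroup (X → Multiplicative ℤ)).map (nm (pm π) n)).comap Φ = Ψ.ker := by
      ext b
      rw [Subgroup.mem_comap, Subgroup.mem_map, MonoidHom.mem_ker]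
      have hiff : Ψ b = 1 ↔ ∀ y, ((n / (F y).card : ℕ) : ℤ) ∣ Multiplicative.toAdd (b y) := by
        rw [funext_iff]
        refine forall_congr' fun y => ?_
        have h1 : Ψ b y = 1 ↔
            ((Multiplicative.toAdd (b y) : ℤ) : ZMod (n / (F y).card)) = 0 := Iff.rfl
        exact h1.trans (CharP.intCast_eq_zero_iff (ZMod (n / (F y).card)) _ _)
      rw [hiff]
      constructor
      · rintro ⟨a, -, ha⟩ y
        obtain ⟨x, rfl⟩ := hp y
        have h1 : nm (pm π) n a x = b (p x) := congrFun ha x
        rw [hnm] at h1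
        rw [← h1, toAdd_pow]
        exact ⟨_, by rw [nsmul_eq_mul]⟩
      · intro h
        choose c hc using h
        let x0 : Y → X := Function.surjInv hp
        have hx0 : ∀ y, p (x0 y) = y := Function.surjInv_eq hp
        refine ⟨fun x => if x0 (p x) = x then Multiplicative.ofAdd (c (p x)) else 1, trivial, ?_⟩
        funext x
        rw [hnm]
        show _ = b (p x)
        have h1 : ∏ x' ∈ F (p x), (if x0 (p x') = x' then Multiplicative.ofAdd (c (p x')) else 1) =
            Multiplicative.ofAdd (c (p x)) := by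
          rw [Finset.prod_eq_single (x0 (p x))]
          · rw [hx0, if_pos rfl]
          · intro x' hx' hne
            rw [if_neg]
            intro h2
            apply hne
            have h3 : p x' = p x := by simpa [F] using hx'
            rw [← h2, h3]
          · intro h2
            exact absurd (by simp [F, hx0]) h2
        rw [h1]
        apply Multiplicative.toAdd.injective
        rw [toAdd_pow, hc, nsmul_eq_mul, toAdd_ofAdd]
    unfold h0
    rw [hA, ← Subgroup.index_comap, hB, Subgroup.index_ker]
    have hsurj : Function.Surjective Ψ := by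
      intro g
      refine ⟨fun y => Multiplicative.ofAdd ((Multiplicative.toAdd (g y)).cast : ℤ), ?_⟩
      funext y
      show Multiplicative.ofAdd (((Multiplicative.toAdd (g y)).cast : ℤ) : ZMod _) = g y
      rw [ZMod.intCast_cast, ZMod.cast_id]
      rfl
    rw [MonoidHom.range_eq_top.2 hsurj, Subgroup.card_top, Nat.card_pi]
    refine Finset.prod_congr rfl fun y _ => ?_
    rw [hcardF]
    exact Nat.card_zmod _
  · -- `h1`
    unfold h1
    rw [Subgroup.relIndex_eq_one]
    rintro a ⟨-, ha⟩
    replace ha : nm (pm π) n a = 1 := ha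
    have ha0 : ∀ x, ∏ x' ∈ F (p x), a x' = 1 := by
      intro x
      have h1 := congrFun ha x
      rw [hnm] at h1
      have h2 : (∏ x' ∈ F (p x), a x') ^ (n / (F (p x)).card) = 1 := h1
      have h3 := congrArg Multiplicative.toAdd h2
      rw [toAdd_pow, toAdd_one, nsmul_eq_mul] at h3
      rcases mul_eq_zero.1 h3 with h4 | h4
      · have := hm0 (p x)
        have h5 : n / (F (p x)).card = 0 := by exact_mod_cast h4
        omega
      · exact Multiplicative.toAdd.injective (by rw [toAdd_one]; exact h4)
    -- partial products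
    let x0 : Y → X := Function.surjInv hp
    have hx0 : ∀ y, p (x0 y) = y := Function.surjInv_eq hp
    let C : X → ℕ → Multiplicative ℤ := fun z i => ∏ j ∈ Finset.range i, a (π.symm^[j] z)
    have hC : ∀ (z : X) (i k : ℕ), π.symm^[i] z = π.symm^[i + k] z → C z i = C z (i + k) := by
      intro z i k h
      show C z i = ∏ j ∈ Finset.range (i + k), a (π.symm^[j] z)
      rw [Finset.prod_range_add]
      have h1 : π.symm^[k] (π.symm^[i] z) = π.symm^[i] z := by
        rw [← Function.iterate_add_apply, add_comm k i, ← h]
      have h2 := ((key a (π.symm^[i] z)).2 k h1).2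
      have h3 : ∏ j ∈ Finset.range k, a (π.symm^[i + j] z) = 1 := by
        rw [ha0, one_pow] at h2
        rw [← h2]
        refine Finset.prod_congr rfl fun j _ => ?_
        rw [add_comm i j, Function.iterate_add_apply]
      rw [h3, mul_one]
    have hC' : ∀ (z : X) (i j : ℕ), π.symm^[i] z = π.symm^[j] z → C z i = C z j := by
      intro z i j h
      rcases le_total i j with hij | hij
      · obtain ⟨k, rfl⟩ := Nat.exists_eq_add_of_le hij
        exact hC z i k h
      · obtain ⟨k, rfl⟩ := Nat.exists_eq_add_of_le hij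
        exact (hC z j k h.symm).symm
    have hex : ∀ x : X, ∃ i : ℕ, π.symm^[i] (x0 (p x)) = x := fun x =>
      (hfib' _ _).1 (hx0 (p x))
    choose e he using hex
    refine ⟨fun x => C (x0 (p x)) (e x), trivial, ?_⟩
    funext x
    rw [dl_apply]
    have hpx : p (π.symm x) = p x := ((hfib' _ _).2 ⟨1, rfl⟩).symm
    show C (x0 (p (π.symm x))) (e (π.symm x)) / C (x0 (p x)) (e x) = a x
    have h1 : C (x0 (p (π.symm x))) (e (π.symm x)) = C (x0 (p x)) (e x + 1) := by
      rw [hpx]
      apply hC'
      have h2 := he (π.symm x)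
      rw [hpx] at h2
      rw [h2, Function.iterate_succ_apply', he]
    rw [h1]
    show (∏ j ∈ Finset.range (e x + 1), a (π.symm^[j] (x0 (p x)))) / C (x0 (p x)) (e x) = a x
    rw [Finset.prod_range_succ, he]
    show C (x0 (p x)) (e x) * a x / C (x0 (p x)) (e x) = a x
    rw [mul_div_cancel_left]

end Pool.Agent.H89.RQ
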